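import Pool.Agent.Q264.CB.Stm

/-!
# Project CB (helper264), job SUB (helper182)
-/

namespace Pool.Agent.Q182.CB

open Pool.Agent.Q264.CB

lemma sq_add_sq (u : Circle) : (u : ℂ).re ^ 2 + (u : ℂ).im ^ 2 = 1 := by
  have h := Circle.normSq_coe u
  rw [Complex.normSq_apply] at h
  nlinarith [h]

lemma abs_im_le (u : Circle) : |(u : ℂ).im| ≤ 1 := by
  have h := sq_add_sq u
  rw [← sq_le_one_iff_abs_le_one]
  nlinarith [sq_nonneg (u : ℂ).re]

lemma rt_ge (m a b : ℝ) (hm : 0 ≤ m) (ha : m ≤ a) (hb : m ≤ b) (u : Circle) : m ≤ rt a b u := by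
  unfold rt
  apply Real.le_sqrt_of_sq_le
  have h := sq_add_sq u
  have h1 : m ^ 2 ≤ a ^ 2 := by nlinarith
  have h2 : m ^ 2 ≤ b ^ 2 := by nlinarith
  have h3 : m ^ 2 * (u : ℂ).re ^ 2 ≤ a ^ 2 * (u : ℂ).re ^ 2 :=
    mul_le_mul_of_nonneg_right h1 (sq_nonneg _)
  have h4 : m ^ 2 * (u : ℂ).im ^ 2 ≤ b ^ 2 * (u : ℂ).im ^ 2 :=
    mul_le_mul_of_nonneg_right h2 (sq_nonneg _)
  have h5 : m ^ 2 = m ^ 2 * (u : ℂ).re ^ 2 + m ^ 2 * (u : ℂ).im ^ 2 := by
    rw [← mul_add, h, mul_one]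
  rw [mul_pow, mul_pow, h5]
  exact add_le_add h3 h4

lemma rt_le (m a b : ℝ) (ha0 : 0 ≤ a) (hb0 : 0 ≤ b) (ha : a ≤ m) (hb : b ≤ m) (u : Circle) : rt a b u ≤ m := by
  unfold rt
  have hm : 0 ≤ m := ha0.trans ha
  apply Real.sqrt_le_iff.2 ⟨hm, ?_⟩
  have h := sq_add_sq u
  have h1 : a ^ 2 ≤ m ^ 2 := by nlinarith
  have h2 : b ^ 2 ≤ m ^ 2 := by nlinarith
  have h3 : a ^ 2 * (u : ℂ).re ^ 2 ≤ m ^ 2 * (u : ℂ).re ^ 2 :=
    mul_le_mul_of_nonneg_right h1 (sq_nonneg _)
  have h4 : b ^ 2 * (u : ℂ).im ^ 2 ≤ m ^ 2 * (u : ℂ).im ^ 2 :=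
    mul_le_mul_of_nonneg_right h2 (sq_nonneg _)
  have h5 : m ^ 2 = m ^ 2 * (u : ℂ).re ^ 2 + m ^ 2 * (u : ℂ).im ^ 2 := by
    rw [← mul_add, h, mul_one]
  rw [mul_pow, mul_pow, h5]
  exact add_le_add h3 h4

lemma rt_neg (a b : ℝ) (u v : Circle) (h : (v : ℂ) = -(u : ℂ)) : rt a b v = rt a b u := by
  unfold rt
  rw [h, Complex.neg_re, Complex.neg_im]
  congr 1
  ring

lemma fam_eq (l : ℕ) (i : Fin (2 * l + 2)) (hi : i.val ≠ 2 * l + 1) : fam l (-1) i = fam l 1 i := by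
  unfold fam
  by_cases h0 : i.val = 0
  · rw [if_pos h0, if_pos h0]
  · rw [if_neg h0, if_neg h0, if_neg hi, if_neg hi]

lemma supp_last (hS : S_SUPP) (l : ℕ) (σ : ℝ) (i : Fin (2 * l + 2)) (hi : i.val = 2 * l + 1) (u : Circle) :
    supp (fam l σ i) u = σ * (u : ℂ).im + (4 * l + 3) := by
  have hR : (0 : ℝ) < 4 * l + 3 := by positivity
  unfold fam
  rw [if_neg (by omega), if_pos hi, (hS _ _ σ hR hR).1 u]
  congr 1
  exact le_antisymm (rt_le _ _ _ hR.le hR.le le_rfl le_rfl u) (rt_ge _ _ _ hR.le le_rfl le_rfl u)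

lemma supp_odd (hS : S_SUPP) (l : ℕ) (σ : ℝ) (i : Fin (2 * l + 2)) (hi : i.val ≠ 2 * l + 1) (h : i.val % 2 = 1)
    (u : Circle) : supp (fam l σ i) u = rt (2 * i.val + 3) (2 * i.val) u := by
  have h0 : i.val ≠ 0 := by omega
  have h1 : (0 : ℝ) < i.val := by
    have : 0 < i.val := by omega
    exact_mod_cast this
  unfold fam
  rw [if_neg h0, if_neg hi, if_pos h, (hS _ _ 0 (by positivity) (by positivity)).1 u, zero_mul, zero_add]

lemma supp_even (hS : S_SUPP) (l : ℕ) (σ : ℝ) (i : Fin (2 * l + 2)) (h0 : i.val ≠ 0) (hi : i.val ≠ 2 * l + 1)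
    (h : i.val % 2 ≠ 1)
    (u : Circle) : supp (fam l σ i) u = rt (2 * i.val) (2 * i.val + 3) u := by
  have h1 : (0 : ℝ) < i.val := by
    have : 0 < i.val := by omega
    exact_mod_cast this
  unfold fam
  rw [if_neg h0, if_neg hi, if_neg h, (hS _ _ 0 (by positivity) (by positivity)).1 u, zero_mul, zero_add]

lemma supp_zero (hS : S_SUPP) (l : ℕ) (σ : ℝ) (i : Fin (2 * l + 2)) (h0 : i.val = 0)
    (u : Circle) : supp (fam l σ i) u = (u : ℂ).im + rt 2 2 u := by
  unfold fam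
  rw [if_pos h0, (hS _ _ 1 (by norm_num) (by norm_num)).1 u, one_mul]

lemma supp_lower (hS : S_SUPP) (l : ℕ) (σ : ℝ) (hσ : |σ| ≤ 1) (i : Fin (2 * l + 2)) (h0 : i.val ≠ 0) (u : Circle) :
    2 * (i.val : ℝ) ≤ supp (fam l σ i) u := by
  have h3 : (0 : ℝ) ≤ i.val := Nat.cast_nonneg _
  by_cases hi : i.val = 2 * l + 1
  · rw [supp_last hS l σ i hi u, hi]
    push_cast
    have h1 : |σ * (u : ℂ).im| ≤ 1 := by
      rw [abs_mul]
      exact mul_le_one₀ hσ (abs_nonneg _) (abs_im_le u)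
    have h2 := (abs_le.1 h1).1
    linarith
  · by_cases h : i.val % 2 = 1
    · rw [supp_odd hS l σ i hi h u]
      exact rt_ge _ _ _ (by positivity) (by linarith) le_rfl u
    · rw [supp_even hS l σ i h0 hi h u]
      exact rt_ge _ _ _ (by positivity) le_rfl (by linarith) u

lemma supp_upper (hS : S_SUPP) (l : ℕ) (σ : ℝ) (i : Fin (2 * l + 2)) (hi : i.val ≠ 2 * l + 1) (u : Circle) :
    supp (fam l σ i) u ≤ 2 * (i.val : ℝ) + 3 := by
  have h3 : (0 : ℝ) ≤ i.val := Nat.cast_nonneg _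
  by_cases h0 : i.val = 0
  · rw [supp_zero hS l σ i h0 u, h0]
    have h1 := (abs_le.1 (abs_im_le u)).2
    have h2 := rt_le 2 2 2 (by norm_num) (by norm_num) le_rfl le_rfl u
    push_cast
    linarith
  · by_cases h : i.val % 2 = 1
    · rw [supp_odd hS l σ i hi h u]
      exact rt_le _ _ _ (by positivity) (by positivity) le_rfl (by linarith) u
    · rw [supp_even hS l σ i h0 hi h u]
      exact rt_le _ _ _ (by positivity) (by positivity) (by linarith) le_rfl u

lemma supp_neg (hS : S_SUPP) (l : ℕ) (i : Fin (2 * l + 2)) (h0 : i.val ≠ 0) (u v : Circle)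
    (h : (v : ℂ) = -(u : ℂ)) : supp (fam l 1 i) v = supp (fam l (-1) i) u := by
  by_cases hi : i.val = 2 * l + 1
  · rw [supp_last hS l _ i hi, supp_last hS l _ i hi, h, Complex.neg_im]
    ring
  · by_cases h2 : i.val % 2 = 1
    · rw [supp_odd hS l _ i hi h2, supp_odd hS l _ i hi h2, rt_neg _ _ u v h]
    · rw [supp_even hS l _ i h0 hi h2, supp_even hS l _ i h0 hi h2, rt_neg _ _ u v h]

lemma coe_mul_exp_pi (u : Circle) : ((u * Circle.exp Real.pi : Circle) : ℂ) = -(u : ℂ) := by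
  rw [Circle.coe_mul, Circle.coe_exp, Complex.exp_pi_mul_I]
  ring

/-- **SUB.** -/
theorem t_SUB (hSUPP : S_SUPP) (hTWIST : S_TWIST) : S_SUB := by
  intro l _ S hS
  obtain ⟨k, hk⟩ := (Set.ne_univ_iff_exists_notMem S).1 hS
  let s : ℝ → ℝ := fun y : ℝ => max 0 (min 1 (y - (2 * (k.val : ℝ) + 1)))
  have hs : Continuous s := by
    show Continuous (fun y : ℝ => max 0 (min 1 (y - (2 * (k.val : ℝ) + 1))))
    fun_prop
  have hs0 : ∀ y : ℝ, y ≤ 2 * (k.val : ℝ) + 1 → s y = 0 := by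
    intro y hy
    show max 0 (min 1 (y - (2 * (k.val : ℝ) + 1))) = 0
    apply max_eq_left
    exact (min_le_right _ _).trans (by linarith)
  have hs1 : ∀ y : ℝ, 2 * (k.val : ℝ) + 2 ≤ y → s y = 1 := by
    intro y hy
    show max 0 (min 1 (y - (2 * (k.val : ℝ) + 1))) = 1
    rw [min_eq_left (by linarith)]
    exact max_eq_right zero_le_one
  obtain ⟨φ, hφ, -, hhom⟩ := hTWIST s hs
  refine ⟨φ, hhom, ⟨1, ?_⟩, ?_⟩
  · intro u y hy
    rw [hφ]
    show (0 : ℝ) < y
    linarith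
  · intro i hi
    have hik : i ≠ k := by
      rintro rfl
      exact hk hi
    have hik2 : i.val ≠ k.val := fun h : i.val = k.val => hik (Fin.ext h)
    rcases lt_or_gt_of_ne hik2 with hlt | hgt
    · -- below
      have hl : i.val ≠ 2 * l + 1 := by
        have := k.isLt
        omega
      have hcast : (i.val : ℝ) + 1 ≤ k.val := by exact_mod_cast hlt
      have hfix : ∀ u : Circle, φ (u, supp (fam l 1 i) u) = (u, supp (fam l 1 i) u) := by
        intro u
        have h1 := supp_upper hSUPP l 1 i hl u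
        rw [hφ, hs0 _ (by linarith), mul_zero, Circle.exp_zero, mul_one]
      rw [fam_eq l i hl]
      ext ⟨u, y⟩
      constructor
      · rintro ⟨⟨u', y'⟩, h1, h2⟩
        have h3 : y' = supp (fam l 1 i) u' := h1
        rw [h3, hfix] at h2
        rw [← h2]
        rfl
      · intro h1
        have h3 : y = supp (fam l 1 i) u := h1
        refine ⟨(u, y), h1, ?_⟩
        rw [h3]
        exact hfix u
    · -- above
      have h0 : i.val ≠ 0 := by omega
      have hcast : (k.val : ℝ) + 1 ≤ i.val := by exact_mod_cast hgt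
      have hmove : ∀ u : Circle, φ (u, supp (fam l (-1) i) u) = (u * Circle.exp Real.pi, supp (fam l (-1) i) u) := by
        intro u
        have h1 := supp_lower hSUPP l (-1) (by norm_num) i h0 u
        rw [hφ, hs1 _ (by linarith), mul_one]
      have hneg : ∀ u : Circle, supp (fam l 1 i) (u * Circle.exp Real.pi) = supp (fam l (-1) i) u := by
        intro u
        exact supp_neg hSUPP l i h0 u _ (coe_mul_exp_pi u)
      ext ⟨u, y⟩
      constructor
      · rintro ⟨⟨u', y'⟩, h1, h2⟩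
        have h3 : y' = supp (fam l (-1) i) u' := h1
        rw [h3, hmove] at h2
        rw [← h2]
        show supp (fam l (-1) i) u' = supp (fam l 1 i) (u' * Circle.exp Real.pi)
        exact (hneg u').symm
      · intro h1
        have h3 : y = supp (fam l 1 i) u := h1
        have h4 : u * (Circle.exp Real.pi)⁻¹ * Circle.exp Real.pi = u := inv_mul_cancel_right u _
        have h5 : supp (fam l (-1) i) (u * (Circle.exp Real.pi)⁻¹) = y := by
          rw [← hneg, h4, h3]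
        refine ⟨(u * (Circle.exp Real.pi)⁻¹, y), h5.symm, ?_⟩
        have h6 := hmove (u * (Circle.exp Real.pi)⁻¹)
        rw [h5, h4] at h6
        exact h6

end Pool.Agent.Q182.CB
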